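import Pool.Agent.Helper44.GH.Stmts

/-!
# The inequality of Berwald
-/

open MeasureTheory Set

namespace Pool.Agent.Helper63.GH

open Pool.Agent.Helper44.GH

/-- A concave function with two zeros. -/
theorem conc_sign {g : ℝ → ℝ} (hg : ConcaveOn ℝ (Ici 0) g) {x1 x2 : ℝ} (h0 : 0 ≤ x1)
    (h12 : x1 < x2) (g1 : g x1 = 0) (g2 : g x2 = 0) (x : ℝ) (hx : 0 ≤ x) :
    (x1 ≤ x → x ≤ x2 → 0 ≤ g x) ∧ (x ≤ x1 → g x ≤ 0) ∧ (x2 ≤ x → g x ≤ 0) := by
  have m1 : x1 ∈ Ici (0 : ℝ) := h0
  have m2 : x2 ∈ Ici (0 : ℝ) := h0.trans h12.le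
  refine ⟨?_, ?_, ?_⟩
  · intro ha hb
    rcases eq_or_lt_of_le ha with ha | ha
    · rw [← ha, g1]
    rcases eq_or_lt_of_le hb with hb | hb
    · rw [hb, g2]
    have h := hg.slope_anti_adjacent m1 m2 ha hb
    rw [g1, g2, div_le_div_iff₀ (by linarith) (by linarith)] at h
    by_contra hc
    push Not at hc
    nlinarith [mul_pos (neg_pos.2 hc) (sub_pos.2 ha), mul_pos (neg_pos.2 hc) (sub_pos.2 hb)]
  · intro ha
    rcases eq_or_lt_of_le ha with ha | ha
    · rw [ha, g1]
    have h := hg.slope_anti_adjacent (show x ∈ Ici (0 : ℝ) from hx) m2 ha h12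
    rw [g1, g2, div_le_div_iff₀ (by linarith) (by linarith)] at h
    by_contra hc
    push Not at hc
    nlinarith [mul_pos hc (sub_pos.2 h12)]
  · intro ha
    rcases eq_or_lt_of_le ha with ha | ha
    · rw [← ha, g2]
    have h := hg.slope_anti_adjacent m1 (show x ∈ Ici (0 : ℝ) from hx) h12 ha
    rw [g1, g2, div_le_div_iff₀ (by linarith) (by linarith)] at h
    by_contra hc
    push Not at hc
    nlinarith [mul_pos hc (sub_pos.2 h12)]

/-- The chord. -/
theorem chord (a b c l : ℝ) (hac : a < c) (hl : 0 < l) (hl1 : l < 1)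
    (hb : b = (1 - l) * a + l * c) (t1 t2 : ℝ) (h1 : 0 < t1) (h12 : t1 < t2) :
    ∃ mu nu : ℝ, ∀ t : ℝ, 0 < t →
      (t1 ≤ t → t ≤ t2 → 0 ≤ t ^ b - mu * t ^ a - nu * t ^ c) ∧
      (t ≤ t1 → t ^ b - mu * t ^ a - nu * t ^ c ≤ 0) ∧
      (t2 ≤ t → t ^ b - mu * t ^ a - nu * t ^ c ≤ 0) := by
  have hk : 0 < c - a := by linarith
  have h2 : 0 < t2 := h1.trans h12
  set x1 : ℝ := t1 ^ (c - a) with hx1
  set x2 : ℝ := t2 ^ (c - a) with hx2
  have p1 : 0 < x1 := Real.rpow_pos_of_pos h1 _
  have hx12 : x1 < x2 := Real.rpow_lt_rpow h1.le h12 hk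
  have hd : x2 - x1 ≠ 0 := by linarith
  set nu : ℝ := (x2 ^ l - x1 ^ l) / (x2 - x1) with hnu
  set mu : ℝ := x1 ^ l - nu * x1 with hmu
  have hconc : ConcaveOn ℝ (Ici (0 : ℝ)) (fun x : ℝ => x ^ l - (mu + nu * x)) := by
    have e1 := Real.concaveOn_rpow hl.le hl1.le
    refine ⟨convex_Ici 0, ?_⟩
    intro x hx y hy s u hs hu hsu
    have e2 := e1.2 hx hy hs hu hsu
    simp only [smul_eq_mul] at e2 ⊢
    have e3 : mu = s * mu + u * mu := by rw [← add_mul, hsu, one_mul]
    nlinarith [e2, e3]
  have g1 : x1 ^ l - (mu + nu * x1) = 0 := by rw [hmu]; ring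
  have g2 : x2 ^ l - (mu + nu * x2) = 0 := by
    have : nu * (x2 - x1) = x2 ^ l - x1 ^ l := by rw [hnu]; field_simp
    rw [hmu]; nlinarith [this]
  refine ⟨mu, nu, ?_⟩
  intro t ht
  have key := conc_sign hconc p1.le hx12 g1 g2 (t ^ (c - a)) (Real.rpow_nonneg ht.le _)
  have e1 : t ^ b - mu * t ^ a - nu * t ^ c
      = t ^ a * ((t ^ (c - a)) ^ l - (mu + nu * t ^ (c - a))) := by
    have e2 : t ^ b = t ^ a * (t ^ (c - a)) ^ l := by
      rw [← Real.rpow_mul ht.le, ← Real.rpow_add ht]; congr 1; rw [hb]; ring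
    have e3 : t ^ c = t ^ a * t ^ (c - a) := by
      rw [← Real.rpow_add ht]; congr 1; ring
    rw [e2, e3]; ring
  have pa : 0 ≤ t ^ a := Real.rpow_nonneg ht.le _
  obtain ⟨k1, k2, k3⟩ := key
  refine ⟨?_, ?_, ?_⟩
  · intro ha hb'
    rw [e1]
    exact mul_nonneg pa (k1 (Real.rpow_le_rpow h1.le ha hk.le) (Real.rpow_le_rpow ht.le hb' hk.le))
  · intro ha
    rw [e1]
    exact mul_nonpos_of_nonneg_of_nonpos pa (k2 (Real.rpow_le_rpow ht.le ha hk.le))
  · intro ha
    rw [e1]
    exact mul_nonpos_of_nonneg_of_nonpos pa (k3 (Real.rpow_le_rpow h2.le ha hk.le))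

/-- The choice of the test function. -/
theorem test (D : ℝ → ℝ) (hc : ContinuousOn D (Ioi 0))
    (hP : ∀ t s u, 0 < t → t < s → s < u → 0 < D t → 0 < D u → 0 < D s)
    (a b c l : ℝ) (hac : a < c) (hl : 0 < l) (hl1 : l < 1)
    (hb : b = (1 - l) * a + l * c) (p0 : ℝ) (hp0 : 0 < p0) (hDp : 0 < D p0) :
    ∃ mu nu : ℝ, ∀ t : ℝ, 0 < t → 0 ≤ (t ^ b - mu * t ^ a - nu * t ^ c) * D t := by
  classical
  have hab : a < b := by rw [hb]; nlinarith
  have hbc : b < c := by rw [hb]; nlinarith
  -- a neighbourhood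
  obtain ⟨δ, hδ, hδp, hnb⟩ : ∃ δ > 0, δ < p0 ∧ ∀ t, p0 - δ < t → t < p0 + δ → 0 < D t := by
    have h1 : ContinuousAt D p0 := hc.continuousAt (Ioi_mem_nhds hp0)
    have h2 : ∀ᶠ t in nhds p0, 0 < D t := h1.eventually (lt_mem_nhds hDp)
    rw [Metric.eventually_nhds_iff] at h2
    obtain ⟨ε, hε, h3⟩ := h2
    refine ⟨min ε (p0 / 2), by positivity, ?_, ?_⟩
    · exact lt_of_le_of_lt (min_le_right _ _) (by linarith)
    · intro t h4 h5
      apply h3
      have h6 : min ε (p0 / 2) ≤ ε := min_le_left _ _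
      rw [Real.dist_eq, abs_lt]
      constructor
      · linarith
      · linarith
  -- left end
  have hleft : (∀ t, 0 < t → t < p0 → 0 < D t) ∨ ∃ t1, 0 < t1 ∧ t1 < p0 ∧
      (∀ t, t1 < t → t ≤ p0 → 0 < D t) ∧ (∀ t, 0 < t → t < t1 → D t ≤ 0) := by
    by_cases hN : ∃ s, 0 < s ∧ s < p0 ∧ D s ≤ 0
    · right
      obtain ⟨s, hs0, hsp, hDs⟩ := hN
      set N : Set ℝ := {t | 0 < t ∧ t < p0 ∧ D t ≤ 0} with hNdef
      have hsN : s ∈ N := ⟨hs0, hsp, hDs⟩
      have hbd : BddAbove N := ⟨p0, fun t ht => ht.2.1.le⟩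
      have hle : sSup N ≤ p0 - δ := by
        apply csSup_le ⟨s, hsN⟩
        intro t ht
        by_contra hcon
        push Not at hcon
        have := hnb t hcon (by linarith [ht.2.1])
        linarith [ht.2.2]
      have hs1 : s ≤ sSup N := le_csSup hbd hsN
      refine ⟨sSup N, lt_of_lt_of_le hs0 hs1, by linarith, ?_, ?_⟩
      · intro t h1 h2
        rcases eq_or_lt_of_le h2 with h2 | h2
        · rw [h2]; exact hDp
        by_contra hcon
        push Not at hcon
        have : t ≤ sSup N := le_csSup hbd ⟨by linarith, h2, hcon⟩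
        linarith
      · intro t h1 h2
        by_contra hcon
        push Not at hcon
        obtain ⟨w, hwN, hw⟩ := exists_lt_of_lt_csSup ⟨s, hsN⟩ h2
        have := hP t w p0 h1 hw hwN.2.1 hcon hDp
        linarith [hwN.2.2]
    · left
      intro t h1 h2
      by_contra hcon
      push Not at hcon
      exact hN ⟨t, h1, h2, hcon⟩
  have hright : (∀ t, p0 < t → 0 < D t) ∨ ∃ t2, p0 < t2 ∧
      (∀ t, p0 ≤ t → t < t2 → 0 < D t) ∧ (∀ t, t2 < t → D t ≤ 0) := by
    by_cases hN : ∃ s, p0 < s ∧ D s ≤ 0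
    · right
      obtain ⟨s, hsp, hDs⟩ := hN
      set N : Set ℝ := {t | p0 < t ∧ D t ≤ 0} with hNdef
      have hsN : s ∈ N := ⟨hsp, hDs⟩
      have hbd : BddBelow N := ⟨p0, fun t ht => ht.1.le⟩
      have hle : p0 + δ ≤ sInf N := by
        apply le_csInf ⟨s, hsN⟩
        intro t ht
        by_contra hcon
        push Not at hcon
        have := hnb t (by linarith [ht.1]) hcon
        linarith [ht.2]
      refine ⟨sInf N, by linarith, ?_, ?_⟩
      · intro t h1 h2
        rcases eq_or_lt_of_le h1 with h1 | h1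
        · rw [← h1]; exact hDp
        by_contra hcon
        push Not at hcon
        have : sInf N ≤ t := csInf_le hbd ⟨h1, hcon⟩
        linarith
      · intro t h2
        by_contra hcon
        push Not at hcon
        obtain ⟨w, hwN, hw⟩ := exists_lt_of_csInf_lt ⟨s, hsN⟩ h2
        have := hP p0 w t hp0 hwN.1 hw hDp hcon
        linarith [hwN.2]
    · left
      intro t h1
      by_contra hcon
      push Not at hcon
      exact hN ⟨t, h1, hcon⟩
  rcases hleft with hL | ⟨t1, ht1, ht1p, hL1, hL2⟩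
  · rcases hright with hR | ⟨t2, ht2, hR1, hR2⟩
    · refine ⟨0, 0, ?_⟩
      intro t ht
      have hDt : 0 < D t := by
        rcases lt_trichotomy t p0 with h | h | h
        · exact hL t ht h
        · rw [h]; exact hDp
        · exact hR t h
      have : 0 ≤ t ^ b := Real.rpow_nonneg ht.le _
      rw [zero_mul, zero_mul, sub_zero, sub_zero]
      exact mul_nonneg this hDt.le
    · have h2 : 0 < t2 := hp0.trans ht2
      refine ⟨0, t2 ^ (b - c), ?_⟩
      intro t ht
      have e1 : t ^ b - 0 * t ^ a - t2 ^ (b - c) * t ^ c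
          = t ^ c * (t ^ (b - c) - t2 ^ (b - c)) := by
        have : t ^ b = t ^ c * t ^ (b - c) := by
          rw [← Real.rpow_add ht]; congr 1; ring
        rw [this]; ring
      rw [e1]
      have pc : 0 ≤ t ^ c := Real.rpow_nonneg ht.le _
      rcases lt_trichotomy t t2 with h | h | h
      · have hDt : 0 < D t := by
          rcases lt_or_ge t p0 with h' | h'
          · exact hL t ht h'
          · exact hR1 t h' h
        have h3 : t2 ^ (b - c) ≤ t ^ (b - c) :=
          Real.rpow_le_rpow_of_nonpos ht h.le (by linarith)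
        exact mul_nonneg (mul_nonneg pc (by linarith)) hDt.le
      · rw [h, sub_self, mul_zero, zero_mul]
      · have hDt := hR2 t h
        have h3 : t ^ (b - c) ≤ t2 ^ (b - c) :=
          Real.rpow_le_rpow_of_nonpos h2 h.le (by linarith)
        exact mul_nonneg_of_nonpos_of_nonpos
          (mul_nonpos_of_nonneg_of_nonpos pc (by linarith)) hDt
  · rcases hright with hR | ⟨t2, ht2, hR1, hR2⟩
    · refine ⟨t1 ^ (b - a), 0, ?_⟩
      intro t ht
      have e1 : t ^ b - t1 ^ (b - a) * t ^ a - 0 * t ^ c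
          = t ^ a * (t ^ (b - a) - t1 ^ (b - a)) := by
        have : t ^ b = t ^ a * t ^ (b - a) := by
          rw [← Real.rpow_add ht]; congr 1; ring
        rw [this]; ring
      rw [e1]
      have pa : 0 ≤ t ^ a := Real.rpow_nonneg ht.le _
      rcases lt_trichotomy t t1 with h | h | h
      · have hDt := hL2 t ht h
        have h3 : t ^ (b - a) ≤ t1 ^ (b - a) := Real.rpow_le_rpow ht.le h.le (by linarith)
        exact mul_nonneg_of_nonpos_of_nonpos
          (mul_nonpos_of_nonneg_of_nonpos pa (by linarith)) hDt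
      · rw [h, sub_self, mul_zero, zero_mul]
      · have hDt : 0 < D t := by
          rcases le_or_gt t p0 with h' | h'
          · exact hL1 t h h'
          · exact hR t h'
        have h3 : t1 ^ (b - a) ≤ t ^ (b - a) := Real.rpow_le_rpow ht1.le h.le (by linarith)
        exact mul_nonneg (mul_nonneg pa (by linarith)) hDt.le
    · obtain ⟨mu, nu, hmn⟩ := chord a b c l hac hl hl1 hb t1 t2 ht1 (ht1p.trans ht2)
      refine ⟨mu, nu, ?_⟩
      intro t ht
      obtain ⟨k1, k2, k3⟩ := hmn t ht
      rcases lt_trichotomy t t1 with h | h | h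
      · exact mul_nonneg_of_nonpos_of_nonpos (k2 h.le) (hL2 t ht h)
      · have h4 := k1 h.ge (by rw [h]; exact (ht1p.trans ht2).le)
        have h5 := k2 h.le
        rw [le_antisymm h5 h4, zero_mul]
      · rcases lt_trichotomy t t2 with h' | h' | h'
        · have hDt : 0 < D t := by
            rcases le_or_gt t p0 with h6 | h6
            · exact hL1 t h h6
            · exact hR1 t h6.le h'
          exact mul_nonneg (k1 h.le h'.le) hDt.le
        · have h4 := k1 h.le h'.le
          have h5 := k3 h'.ge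
          rw [le_antisymm h5 h4, zero_mul]
        · exact mul_nonneg_of_nonpos_of_nonpos (k3 h'.le) (hR2 t h')

theorem exp_int (A B q : ℝ) (hB : 0 < B) (hq : -1 < q) :
    IntegrableOn (fun t => t ^ q * (A * Real.exp (-(B * t)))) (Ioi (0 : ℝ)) ∧
    ∫ t in Ioi (0 : ℝ), t ^ q * (A * Real.exp (-(B * t)))
      = A * B ^ (-(q + 1)) * Real.Gamma (q + 1) := by
  constructor
  · have h := integrableOn_rpow_mul_exp_neg_mul_rpow (p := 1) (s := q) (b := B) hq one_pos hB
    have h2 : IntegrableOn (fun x : ℝ => A * (x ^ q * Real.exp (-B * x ^ (1 : ℝ)))) (Ioi 0) :=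
      h.const_mul A
    refine h2.congr_fun ?_ measurableSet_Ioi
    intro t ht
    simp only [Real.rpow_one]
    have : -B * t = -(B * t) := by ring
    rw [this]; ring
  · have h := Real.integral_rpow_mul_exp_neg_mul_Ioi (a := q + 1) (r := B) (by linarith) hB
    have e : ∀ t : ℝ, t ^ q * (A * Real.exp (-(B * t)))
        = A * (t ^ (q + 1 - 1) * Real.exp (-(B * t))) := by
      intro t; rw [add_sub_cancel_right]; ring
    simp only [e]
    rw [integral_const_mul, h, one_div, Real.inv_rpow hB.le, Real.rpow_neg hB.le]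
    ring

theorem int_pos (f : ℝ → ℝ) (hf : ∀ t, 0 < t → 0 < f t) (q : ℝ)
    (hi : IntegrableOn (fun t => t ^ q * f t) (Ioi (0 : ℝ))) :
    0 < ∫ t in Ioi (0 : ℝ), t ^ q * f t := by
  have hp : ∀ t ∈ Ioi (0 : ℝ), 0 < t ^ q * f t := fun t ht =>
    mul_pos (Real.rpow_pos_of_pos ht _) (hf t ht)
  rw [setIntegral_pos_iff_support_of_nonneg_ae]
  · have hs : Function.support (fun t : ℝ => t ^ q * f t) ∩ Ioi 0 = Ioi 0 := by
      apply Set.inter_eq_right.2
      intro t ht
      exact (hp t ht).ne'
    rw [hs, Real.volume_Ioi]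
    exact ENNReal.zero_lt_top
  · exact (ae_restrict_mem measurableSet_Ioi).mono (fun t ht => (hp t ht).le)
  · exact hi

theorem st_BER : ST_BER := by
  intro f hpos hcont hlc hint a b c l ha hac hl hl1 hb
  have hab : a < b := by rw [hb]; nlinarith
  have hbc : b < c := by rw [hb]; nlinarith
  have hc1 : -1 < c := ha.trans hac
  have hb1 : -1 < b := ha.trans hab
  set Ia := ∫ t in Ioi (0 : ℝ), t ^ a * f t with hIa
  set Ic := ∫ t in Ioi (0 : ℝ), t ^ c * f t with hIc
  have pIa : 0 < Ia := int_pos f hpos a (hint a ha)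
  have pIc : 0 < Ic := int_pos f hpos c (hint c hc1)
  have Ga : 0 < Real.Gamma (a + 1) := Real.Gamma_pos_of_pos (by linarith)
  have Gc : 0 < Real.Gamma (c + 1) := Real.Gamma_pos_of_pos (by linarith)
  have Gb : 0 < Real.Gamma (b + 1) := Real.Gamma_pos_of_pos (by linarith)
  set Na := Ia / Real.Gamma (a + 1) with hNa
  set Nc := Ic / Real.Gamma (c + 1) with hNc
  have pNa : 0 < Na := div_pos pIa Ga
  have pNc : 0 < Nc := div_pos pIc Gc
  set B := (Na / Nc) ^ (1 / (c - a)) with hB
  have pB : 0 < B := Real.rpow_pos_of_pos (div_pos pNa pNc) _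
  set A := Na * B ^ (a + 1) with hA
  have pA : 0 < A := mul_pos pNa (Real.rpow_pos_of_pos pB _)
  have hk : c - a ≠ 0 := by linarith
  have mom : ∀ q : ℝ, A * B ^ (-(q + 1)) = Na * B ^ (a - q) := by
    intro q
    rw [hA, mul_assoc, ← Real.rpow_add pB]
    congr 2; ring
  have powB : ∀ q : ℝ, B ^ (a - q) = (Na / Nc) ^ ((a - q) / (c - a)) := by
    intro q
    rw [hB, ← Real.rpow_mul (div_pos pNa pNc).le]
    congr 1; field_simp
  -- the comparison function
  set h : ℝ → ℝ := fun t => A * Real.exp (-(B * t)) with hh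
  have hha : ∫ t in Ioi (0 : ℝ), t ^ a * h t = Ia := by
    rw [(exp_int A B a pB ha).2, mom, sub_self, Real.rpow_zero, mul_one, hNa]
    field_simp
  have hhc : ∫ t in Ioi (0 : ℝ), t ^ c * h t = Ic := by
    rw [(exp_int A B c pB hc1).2, mom, powB]
    have e1 : (a - c) / (c - a) = -1 := by field_simp; ring
    rw [e1, Real.rpow_neg_one, inv_div]
    have e2 : Na * (Nc / Na) = Nc := by field_simp
    rw [e2, hNc]
    field_simp
  have hhb : ∫ t in Ioi (0 : ℝ), t ^ b * h t
      = Na ^ (1 - l) * Nc ^ l * Real.Gamma (b + 1) := by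
    rw [(exp_int A B b pB hb1).2, mom, powB]
    have e1 : (a - b) / (c - a) = -l := by rw [hb]; field_simp; ring
    rw [e1, Real.rpow_neg (div_pos pNa pNc).le, Real.div_rpow pNa.le pNc.le, inv_div]
    have e2 : Na ^ (1 - l) = Na / Na ^ l := by
      rw [Real.rpow_sub pNa, Real.rpow_one]
    rw [e2]
    ring
  -- the difference
  set D : ℝ → ℝ := fun t => f t - h t with hD
  have hDi : ∀ q : ℝ, -1 < q → IntegrableOn (fun t => t ^ q * D t) (Ioi (0 : ℝ)) := by
    intro q hq
    have e1 := (hint q hq).sub (exp_int A B q pB hq).1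
    refine e1.congr_fun ?_ measurableSet_Ioi
    intro t _
    simp only [hD, hh, Pi.sub_apply]
    ring
  have hDint : ∀ q : ℝ, -1 < q → ∫ t in Ioi (0 : ℝ), t ^ q * D t
      = (∫ t in Ioi (0 : ℝ), t ^ q * f t) - ∫ t in Ioi (0 : ℝ), t ^ q * h t := by
    intro q hq
    rw [← integral_sub (hint q hq) (exp_int A B q pB hq).1]
    apply integral_congr_ae
    filter_upwards with t
    simp only [hD]
    ring
  have da : ∫ t in Ioi (0 : ℝ), t ^ a * D t = 0 := by
    rw [hDint a ha, hha, hIa, sub_self]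
  have dc : ∫ t in Ioi (0 : ℝ), t ^ c * D t = 0 := by
    rw [hDint c hc1, hhc, hIc, sub_self]
  have goal1 : 0 ≤ ∫ t in Ioi (0 : ℝ), t ^ b * D t := by
    by_cases hP : ∃ p0, 0 < p0 ∧ 0 < D p0
    · obtain ⟨p0, hp0, hDp⟩ := hP
      have hcontD : ContinuousOn D (Ioi 0) := by
        apply hcont.sub
        apply Continuous.continuousOn
        exact continuous_const.mul (Real.continuous_exp.comp
          ((continuous_const.mul continuous_id).neg))
      have hconv : ∀ t s u, 0 < t → t < s → s < u → 0 < D t → 0 < D u → 0 < D s := by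
        intro t s u ht hts hsu hDt hDu
        have hu : 0 < u := ht.trans (hts.trans hsu)
        have hut : 0 < u - t := by linarith
        set al := (u - s) / (u - t) with hal
        set be := (s - t) / (u - t) with hbe
        have pal : 0 < al := div_pos (by linarith) hut
        have pbe : 0 < be := div_pos (by linarith) hut
        have sab : al + be = 1 := by rw [hal, hbe]; field_simp; ring
        have es : al * t + be * u = s := by rw [hal, hbe]; field_simp; ring
        have e1 := hlc t u al be ht hu pal pbe sab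
        rw [es] at e1
        have pht : 0 < h t := mul_pos pA (Real.exp_pos _)
        have phu : 0 < h u := mul_pos pA (Real.exp_pos _)
        have e2 : h t ^ al * h u ^ be = h s := by
          simp only [hh]
          rw [Real.mul_rpow pA.le (Real.exp_pos _).le, Real.mul_rpow pA.le (Real.exp_pos _).le,
            ← Real.exp_mul, ← Real.exp_mul]
          have e3 : A ^ al * Real.exp (-(B * t) * al) * (A ^ be * Real.exp (-(B * u) * be))
              = (A ^ al * A ^ be) * (Real.exp (-(B * t) * al) * Real.exp (-(B * u) * be)) := by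
            ring
          rw [e3, ← Real.rpow_add pA, sab, Real.rpow_one, ← Real.exp_add]
          congr 2
          rw [← es]; ring
        have e4 : h t ^ al < f t ^ al :=
          Real.rpow_lt_rpow pht.le (by simp only [hD] at hDt; linarith) pal
        have e5 : h u ^ be < f u ^ be :=
          Real.rpow_lt_rpow phu.le (by simp only [hD] at hDu; linarith) pbe
        have e6 : h t ^ al * h u ^ be < f t ^ al * f u ^ be :=
          mul_lt_mul'' e4 e5 (Real.rpow_nonneg pht.le _) (Real.rpow_nonneg phu.le _)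
        simp only [hD]
        linarith [e2]
      obtain ⟨mu, nu, hmn⟩ := test D hcontD hconv a b c l hac hl hl1 hb p0 hp0 hDp
      have e1 : ∫ t in Ioi (0 : ℝ), t ^ b * D t
          = ∫ t in Ioi (0 : ℝ), (t ^ b - mu * t ^ a - nu * t ^ c) * D t := by
        have i1 := hDi b hb1
        have i2 := (hDi a ha).const_mul mu
        have i3 := (hDi c hc1).const_mul nu
        have e2 : ∫ t in Ioi (0 : ℝ), (t ^ b - mu * t ^ a - nu * t ^ c) * D t
            = ∫ t in Ioi (0 : ℝ), (t ^ b * D t - mu * (t ^ a * D t)) - nu * (t ^ c * D t) := by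
          apply integral_congr_ae
          filter_upwards with t
          ring
        have j0 : IntegrableOn (fun t => t ^ b * D t - mu * (t ^ a * D t)) (Ioi (0 : ℝ)) :=
          i1.sub i2
        have j1 := integral_sub j0 i3
        have j2 := integral_sub i1 i2
        rw [e2, j1, j2, integral_const_mul, integral_const_mul, da, dc]
        ring
      rw [e1]
      apply setIntegral_nonneg measurableSet_Ioi
      intro t ht
      exact hmn t ht
    · push Not at hP
      have h0 : ∀ᵐ t ∂(volume.restrict (Ioi (0 : ℝ))), 0 ≤ -(t ^ a * D t) := by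
        filter_upwards [ae_restrict_mem measurableSet_Ioi] with t ht
        have := hP t ht
        have p := Real.rpow_nonneg (le_of_lt ht) a
        nlinarith
      have h1 : ∫ t in Ioi (0 : ℝ), -(t ^ a * D t) = 0 := by
        rw [integral_neg, da, neg_zero]
      have h2 := (integral_eq_zero_iff_of_nonneg_ae h0 (hDi a ha).neg).1 h1
      have h3 : ∫ t in Ioi (0 : ℝ), t ^ b * D t = 0 := by
        apply integral_eq_zero_of_ae
        filter_upwards [h2, ae_restrict_mem measurableSet_Ioi] with t ht1 ht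
        have p := Real.rpow_pos_of_pos ht a
        have e1 : t ^ a * D t = 0 := by
          simp only [Pi.zero_apply] at ht1
          linarith
        have e2 : D t = 0 := by
          rcases mul_eq_zero.1 e1 with h | h
          · exact absurd h p.ne'
          · exact h
        simp only [Pi.zero_apply]
        rw [e2, mul_zero]
      rw [h3]
  rw [hDint b hb1, hhb] at goal1
  rw [le_div_iff₀ Gb]
  linarith

end Pool.Agent.Helper63.GH

namespace Pool.Agent.Helper44.GH

theorem st_BER : ST_BER := Pool.Agent.Helper63.GH.st_BER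

end Pool.Agent.Helper44.GH
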